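import Pool.Agent.Helper88.MW.Defs

/-!
# Parts AP1 and AP2 of MW: approximate inclusion of subspaces
-/

set_option autoImplicit false

namespace Pool.Agent.Helper49.MW

open Polynomial Module Pool.Agent.Helper88.MW

section lin

variable {K : Type} [Field K] {E : Type} [AddCommGroup E] [Module K E] {E' : Type}
  [AddCommGroup E'] [Module K E']

theorem ap_le {C : ℕ} {X Y : Submodule K E} (h : X ≤ Y) : Ap C X Y :=
  ⟨⊥, inferInstance, by rw [finrank_bot]; exact Nat.zero_le _, h.trans le_sup_left⟩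

theorem ap_mono {C C' : ℕ} {X X' Y Y' : Submodule K E} (h : Ap C X Y) (hC : C ≤ C') (hX : X' ≤ X)
    (hY : Y ≤ Y') : Ap C' X' Y' := by
  obtain ⟨D, hD, hDC, hXD⟩ := h
  exact ⟨D, hD, hDC.trans hC, (hX.trans hXD).trans (sup_le_sup_right hY D)⟩

theorem ap_trans {C C' : ℕ} {X Y Z : Submodule K E} (h : Ap C X Y) (h' : Ap C' Y Z) :
    Ap (C + C') X Z := by
  obtain ⟨D, hD, hDC, hXD⟩ := h
  obtain ⟨D', hD', hDC', hXD'⟩ := h'
  refine ⟨D ⊔ D', inferInstance, ?_, ?_⟩
  · exact (Submodule.finrank_add_le_finrank_add_finrank D D').trans (Nat.add_le_add hDC hDC')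
  · refine hXD.trans (sup_le (hXD'.trans ?_) ?_)
    · exact sup_le_sup_left le_sup_right Z
    · exact le_sup_left.trans le_sup_right

theorem ap_map {C : ℕ} {X Y : Submodule K E} (h : Ap C X Y) (f : E →ₗ[K] E') :
    Ap C (X.map f) (Y.map f) := by
  obtain ⟨D, hD, hDC, hXD⟩ := h
  refine ⟨D.map f, inferInstance, (Submodule.finrank_map_le f D).trans hDC, ?_⟩
  rw [← Submodule.map_sup]
  exact Submodule.map_mono hXD

theorem ap_sup {C C' : ℕ} {X X' Y : Submodule K E} (h : Ap C X Y) (h' : Ap C' X' Y) :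
    Ap (C + C') (X ⊔ X') Y := by
  obtain ⟨D, hD, hDC, hXD⟩ := h
  obtain ⟨D', hD', hDC', hXD'⟩ := h'
  refine ⟨D ⊔ D', inferInstance, ?_, ?_⟩
  · exact (Submodule.finrank_add_le_finrank_add_finrank D D').trans (Nat.add_le_add hDC hDC')
  · refine sup_le (hXD.trans ?_) (hXD'.trans ?_)
    · exact sup_le_sup_left le_sup_left Y
    · exact sup_le_sup_left le_sup_right Y

/-- `f⁻¹(f(Y))` -/
theorem ap_comap_map {C : ℕ} (f : E →ₗ[K] E') [FiniteDimensional K (LinearMap.ker f)]
    (hC : finrank K (LinearMap.ker f) ≤ C) (Y : Submodule K E) :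
    Ap C ((Y.map f).comap f) Y := by
  refine ⟨LinearMap.ker f, inferInstance, hC, ?_⟩
  rw [Submodule.comap_map_eq]

theorem ap_finrank {C : ℕ} {X Y : Submodule K E} [FiniteDimensional K Y] (h : Ap C X Y) :
    finrank K X ≤ finrank K Y + C := by
  obtain ⟨D, hD, hDC, hXD⟩ := h
  have h1 : finrank K X ≤ finrank K (Y ⊔ D : Submodule K E) := Submodule.finrank_mono hXD
  have h2 := Submodule.finrank_add_le_finrank_add_finrank Y D
  omega

/-- Rank-nullity on a subspace. -/
theorem rank_null (f : E →ₗ[K] E') (X : Submodule K E) [FiniteDimensional K X] :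
    finrank K (X.map f) + finrank K (X ⊓ LinearMap.ker f : Submodule K E) = finrank K X := by
  have h1 := LinearMap.finrank_range_add_finrank_ker (f.domRestrict X)
  rw [LinearMap.range_domRestrict, LinearMap.ker_domRestrict] at h1
  have h2 : finrank K (Submodule.comap X.subtype (LinearMap.ker f)) =
      finrank K (X ⊓ LinearMap.ker f : Submodule K E) := by
    rw [← Submodule.map_comap_subtype, Submodule.finrank_map_subtype_eq]
  rw [h2] at h1
  exact h1

theorem ap_iff {C : ℕ} {X Y : Submodule K E} : Ap C X Y ↔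
    FiniteDimensional K (X.map Y.mkQ) ∧ finrank K (X.map Y.mkQ) ≤ C := by
  constructor
  · rintro ⟨D, hD, hDC, hXD⟩
    have h1 : X.map Y.mkQ ≤ D.map Y.mkQ := by
      refine (Submodule.map_mono hXD).trans ?_
      rw [Submodule.map_sup, Submodule.mkQ_map_self, bot_sup_eq]
    have h2 : FiniteDimensional K (X.map Y.mkQ) := Submodule.finiteDimensional_of_le h1
    exact ⟨h2, (Submodule.finrank_mono h1).trans ((Submodule.finrank_map_le _ D).trans hDC)⟩
  · rintro ⟨h1, h2⟩
    obtain ⟨g, hg⟩ := Y.mkQ.exists_rightInverse_of_surjective (by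
      rw [Submodule.range_mkQ])
    refine ⟨(X.map Y.mkQ).map g, inferInstance, (Submodule.finrank_map_le g _).trans h2, ?_⟩
    intro x hx
    have h3 : x - g (Y.mkQ x) ∈ Y := by
      refine (Submodule.Quotient.mk_eq_zero Y).1 ?_
      change Y.mkQ (x - g (Y.mkQ x)) = 0
      have h4 := LinearMap.congr_fun hg (Y.mkQ x)
      rw [LinearMap.comp_apply, LinearMap.id_apply] at h4
      rw [map_sub, h4, sub_self]
    have h5 : x = (x - g (Y.mkQ x)) + g (Y.mkQ x) := by abel
    rw [h5]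
    exact Submodule.add_mem_sup h3 (Submodule.mem_map_of_mem (Submodule.mem_map_of_mem hx))

theorem ap_comap {C : ℕ} {X Y : Submodule K E'} (h : Ap C X Y) (f : E →ₗ[K] E') :
    Ap C (X.comap f) (Y.comap f) := by
  rw [ap_iff] at h ⊢
  obtain ⟨h1, h2⟩ := h
  let φ : (E ⧸ Y.comap f) →ₗ[K] (E' ⧸ Y) := Submodule.mapQ (Y.comap f) Y f le_rfl
  have hφ : Function.Injective φ := by
    rw [← LinearMap.ker_eq_bot, eq_bot_iff]
    intro z hz
    obtain ⟨x, rfl⟩ := Submodule.mkQ_surjective _ z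
    rw [LinearMap.mem_ker] at hz
    change Submodule.Quotient.mk (f x) = (0 : E' ⧸ Y) at hz
    rw [Submodule.Quotient.mk_eq_zero] at hz
    rw [Submodule.mem_bot]
    exact (Submodule.Quotient.mk_eq_zero _).2 hz
  have h3 : ((X.comap f).map (Y.comap f).mkQ).map φ ≤ X.map Y.mkQ := by
    rintro _ ⟨_, ⟨x, hx, rfl⟩, rfl⟩
    exact ⟨f x, hx, rfl⟩
  have h4 : FiniteDimensional K (((X.comap f).map (Y.comap f).mkQ).map φ) :=
    Submodule.finiteDimensional_of_le h3
  have e := Submodule.equivMapOfInjective φ hφ ((X.comap f).map (Y.comap f).mkQ)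
  refine ⟨e.symm.finiteDimensional, ?_⟩
  rw [e.finrank_eq]
  exact (Submodule.finrank_mono h3).trans h2

/-- One can stay inside. -/
theorem ap_self_inf {C : ℕ} {X Y : Submodule K E} (h : Ap C X Y) : Ap C X (X ⊓ Y) := by
  have h1 := ap_map (ap_comap h X.subtype) X.subtype
  rw [Submodule.map_comap_subtype, Submodule.map_comap_subtype, inf_idem] at h1
  exact h1

theorem ap_inf {C C' : ℕ} {X Y Y' : Submodule K E} (h : Ap C X Y) (h' : Ap C' X Y') :
    Ap (C + C') X (Y ⊓ Y') := by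
  have h1 := ap_self_inf h
  have h2 : Ap C' (X ⊓ Y) Y' := ap_mono h' le_rfl inf_le_left le_rfl
  have h3 := ap_trans h1 (ap_self_inf h2)
  exact ap_mono h3 le_rfl le_rfl (le_inf (inf_le_left.trans inf_le_right) inf_le_right)

theorem ap_of_finrank {C : ℕ} {X Y : Submodule K E} [FiniteDimensional K X]
    (h : finrank K X ≤ finrank K (X ⊓ Y : Submodule K E) + C) : Ap C X Y := by
  rw [ap_iff]
  refine ⟨inferInstance, ?_⟩
  have h1 := rank_null Y.mkQ X
  rw [Submodule.ker_mkQ] at h1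
  omega

theorem finrank_of_ap {C : ℕ} {X Y : Submodule K E} [FiniteDimensional K X] (h : Ap C X Y) :
    finrank K X ≤ finrank K (X ⊓ Y : Submodule K E) + C := by
  rw [ap_iff] at h
  have h1 := rank_null Y.mkQ X
  rw [Submodule.ker_mkQ] at h1
  omega

/-- if `m W ⊆ W` up to `C`, `m` injective, then `W ⊆ m W` up to `C`. -/
theorem ap_symm_of_inj {C : ℕ} {W : Submodule K E} [FiniteDimensional K W] (m : E →ₗ[K] E)
    (hm : Function.Injective m) (h : Ap C W (W.comap m)) : Ap C W (W.map m) := by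
  apply ap_of_finrank
  have h1 := finrank_of_ap h
  have h2 : (W ⊓ W.comap m).map m ≤ W ⊓ W.map m := by
    rintro _ ⟨x, ⟨hx1, hx2⟩, rfl⟩
    exact ⟨hx2, Submodule.mem_map_of_mem hx1⟩
  have h3 : finrank K ((W ⊓ W.comap m).map m) = finrank K (W ⊓ W.comap m : Submodule K E) :=
    ((Submodule.equivMapOfInjective m hm _).finrank_eq).symm
  have h4 : finrank K ((W ⊓ W.comap m).map m) ≤ finrank K (W ⊓ W.map m : Submodule K E) :=
    Submodule.finrank_mono h2
  omega

/-- The kernel of a map of small rank. -/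
theorem ap_ker {C : ℕ} (φ : E →ₗ[K] E') (X : Submodule K E) [FiniteDimensional K (X.map φ)]
    (h : finrank K (X.map φ) ≤ C) : Ap C X (LinearMap.ker φ) := by
  have h1 : Ap C (X.map φ) (⊥ : Submodule K E') := ⟨X.map φ, inferInstance, h, by
    rw [bot_sup_eq]⟩
  have h2 := ap_comap h1 φ
  exact ap_mono h2 le_rfl (Submodule.le_comap_map φ X) le_rfl

/-- orthogonality to a subspace of dimension `≤ C` costs `C` dimensions -/
theorem ap_orth {C : ℕ} (X : Submodule K E) (D : Submodule K E') [FiniteDimensional K D]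
    (hD : finrank K D ≤ C) (γ : E' →ₗ[K] E →ₗ[K] K) (Y : Submodule K E)
    (hY : ∀ h ∈ X, (∀ x ∈ D, γ x h = 0) → h ∈ Y) : Ap C X Y := by
  let φ : E →ₗ[K] Module.Dual K D := (γ.domRestrict D).flip
  have h1 : finrank K (X.map φ) ≤ C := by
    refine (Submodule.finrank_le _).trans ?_
    rw [Subspace.dual_finrank_eq]
    exact hD
  have h2 := ap_self_inf (ap_ker φ X h1)
  refine ap_mono h2 le_rfl le_rfl ?_
  rintro x ⟨hx1, hx2⟩
  refine hY x hx1 fun d hd => ?_
  exact LinearMap.congr_fun (LinearMap.mem_ker.1 hx2) ⟨d, hd⟩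

end lin

end Pool.Agent.Helper49.MW
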