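import Pool.Agent.Helper49.MW.AP

/-!
# Part GR of MW: growth
-/

set_option autoImplicit false

namespace Pool.Agent.Helper49.MW

open Polynomial Module Pool.Agent.Helper88.MW

section lin

variable {K : Type} [Field K] {E : Type} [AddCommGroup E] [Module K E]

/-- The chain of the strings. -/
def chain (Y : Submodule K E) (T : E →ₗ[K] E) : ℕ → Submodule K E
  | 0 => Y ⊔ Y.map T
  | 1 => Y
  | (i + 2) => chain Y T (i + 1) ⊓ (chain Y T (i + 1)).comap T

lemma chain_le (Y : Submodule K E) (T : E →ₗ[K] E) (i : ℕ) :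
    chain Y T (i + 1) ⊔ (chain Y T (i + 1)).map T ≤ chain Y T i := by
  cases i with
  | zero => exact le_rfl
  | succ i =>
    refine sup_le inf_le_left ?_
    rw [Submodule.map_le_iff_le_comap]
    exact inf_le_right

lemma chain_fin (Y : Submodule K E) (T : E →ₗ[K] E) [FiniteDimensional K Y] (i : ℕ) :
    FiniteDimensional K (chain Y T i) := by
  induction i with
  | zero =>
    change FiniteDimensional K (Y ⊔ Y.map T : Submodule K E)
    infer_instance
  | succ i ih => exact Submodule.finiteDimensional_of_le (le_sup_left.trans (chain_le Y T i))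

lemma chain_conv (Y : Submodule K E) (T : E →ₗ[K] E) (hT : Function.Injective T)
    [FiniteDimensional K Y] (i : ℕ) :
    2 * finrank K (chain Y T (i + 1)) ≤ finrank K (chain Y T i) + finrank K (chain Y T (i + 2)) := by
  have f0 := chain_fin Y T i
  have f1 := chain_fin Y T (i + 1)
  set B := chain Y T (i + 1) with hB
  have h1 := Submodule.finrank_mono (chain_le Y T i)
  rw [← hB] at h1
  have h2 := Submodule.finrank_sup_add_finrank_inf_eq B (B.map T)
  have h3 : finrank K (B.map T) = finrank K B :=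
    ((Submodule.equivMapOfInjective T hT _).finrank_eq).symm
  have h4 : B ⊓ B.map T = (B ⊓ B.comap T).map T := by
    ext x
    constructor
    · rintro ⟨hx, y, hy, rfl⟩
      exact ⟨y, ⟨hy, hx⟩, rfl⟩
    · rintro ⟨y, ⟨hy, hx⟩, rfl⟩
      exact ⟨hx, y, hy, rfl⟩
  have h5 : finrank K ((B ⊓ B.comap T).map T) = finrank K (B ⊓ B.comap T : Submodule K E) :=
    ((Submodule.equivMapOfInjective T hT _).finrank_eq).symm
  have h6 : chain Y T (i + 2) = B ⊓ B.comap T := rfl
  rw [h4, h5, h3] at h2
  rw [h6]
  omega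

lemma chain_mem (Y : Submodule K E) (T : E →ₗ[K] E) (i : ℕ) {x : E}
    (hx : x ∈ chain Y T (i + 1)) : ∀ k ≤ i, (T ^ k) x ∈ Y := by
  induction i generalizing x with
  | zero =>
    intro k hk
    obtain rfl : k = 0 := by omega
    exact hx
  | succ i ih =>
    intro k hk
    obtain ⟨h1, h2⟩ := hx
    rcases Nat.lt_or_ge i k with h | h
    · obtain rfl : k = i + 1 := by omega
      rw [pow_succ]
      exact ih h2 i le_rfl
    · exact ih h1 k h

theorem growth (P : ℕ) (hP : 2 ≤ P) (Y : Submodule K E) [FiniteDimensional K Y] (T : E →ₗ[K] E)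
    (hT : Function.Injective T) (h : ∀ x : E, (∀ i < P, (T ^ i) x ∈ Y) → x = 0) :
    P * finrank K Y ≤ (P - 1) * finrank K (Y ⊔ Y.map T : Submodule K E) := by
  have h0 : chain Y T P = ⊥ := by
    rw [eq_bot_iff]
    intro x hx
    obtain ⟨Q, rfl⟩ : ∃ Q, P = Q + 1 := ⟨P - 1, by omega⟩
    exact h x fun i hi => chain_mem Y T Q hx i (by omega)
  let a : ℕ → ℤ := fun i => finrank K (chain Y T i)
  have hconv : ∀ i, 2 * a (i + 1) ≤ a i + a (i + 2) := by
    intro i
    have := chain_conv Y T hT i
    simp only [a]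
    exact_mod_cast this
  have hd : ∀ i, a i - a (i + 1) ≤ a 0 - a 1 := by
    intro i
    induction i with
    | zero => exact le_rfl
    | succ i ih =>
      have := hconv i
      have e : i + 1 + 1 = i + 2 := rfl
      rw [e]
      linarith
  have hs : ∀ n : ℕ, a 1 - a (n + 1) ≤ n * (a 0 - a 1) := by
    intro n
    induction n with
    | zero => simp
    | succ n ih =>
      have := hd (n + 1)
      push_cast
      linarith
  have h1 := hs (P - 1)
  have h2 : P - 1 + 1 = P := by omega
  rw [h2] at h1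
  have h3 : a P = 0 := by
    simp only [a]
    rw [h0, finrank_bot]
    rfl
  have h4 : a 1 = finrank K Y := rfl
  have h5 : a 0 = finrank K (Y ⊔ Y.map T : Submodule K E) := rfl
  rw [h3, h4, h5] at h1
  have h6 : ((P - 1 : ℕ) : ℤ) = (P : ℤ) - 1 := by
    rw [Nat.cast_sub (by omega)]
    rfl
  zify
  rw [h6] at h1 ⊢
  linarith

end lin

section poly

variable {p : ℕ} [Fact p.Prime] {F : Type} [Field F] [Fintype F] [Algebra (ZMod p) F]

theorem gr (P : ℕ) (hP : 2 ≤ P) (Y : Submodule (ZMod p) F[X]) [FiniteDimensional (ZMod p) Y]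
    (h : ∀ x : F[X], (∀ i < P, X ^ i * x ∈ Y) → x = 0) :
    P * finrank (ZMod p) Y ≤ (P - 1) * finrank (ZMod p) (Y ⊔ Y.map (mu X) : Submodule _ _) := by
  refine growth P hP Y (mu X) ?_ ?_
  · intro a b hab
    exact mul_left_cancel₀ X_ne_zero hab
  · intro x hx
    refine h x fun i hi => ?_
    have h1 : ∀ i : ℕ, ((mu (p := p) (X : F[X])) ^ i) x = X ^ i * x := by
      intro i
      induction i with
      | zero => rw [pow_zero, pow_zero, one_mul]; rfl
      | succ i ih =>
        rw [pow_succ', Module.End.mul_apply, ih, pow_succ', mul_assoc]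
        rfl
    rw [← h1]
    exact hx i hi

end poly

end Pool.Agent.Helper49.MW
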