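import Pool.Agent.Helper49.MW.AP

/-!
# Part LA2 of MW: duality
-/

set_option autoImplicit false

namespace Pool.Agent.Helper49.MW

open Polynomial Module Pool.Agent.Helper88.MW

section lin

variable {K : Type} [Field K] {E : Type} [AddCommGroup E] [Module K E]

variable (β : E →ₗ[K] E →ₗ[K] K) (V : Submodule K E)

private theorem la_le' (i : ℕ) : A β V i ≤ V := by
  cases i with
  | zero => exact bot_le
  | succ i => exact inf_le_left

private theorem la_mono' (i : ℕ) : A β V i ≤ A β V (i + 1) := by
  induction i with
  | zero => exact bot_le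
  | succ i ih =>
    exact inf_le_inf_left V (Submodule.comap_mono (Submodule.map_mono ih))

private theorem la_map' (i : ℕ) :
    (A β V i).map (aL β V + aR β V) = (A β V i).map (aL β V) := by
  induction i with
  | zero =>
    change (⊥ : Submodule K E).map _ = (⊥ : Submodule K E).map _
    rw [Submodule.map_bot, Submodule.map_bot]
  | succ i ih =>
    refine le_antisymm ?_ ?_
    · rintro _ ⟨y, hy, rfl⟩
      rw [LinearMap.add_apply]
      refine Submodule.add_mem _ (Submodule.mem_map_of_mem hy) ?_
      exact Submodule.map_mono (la_mono' β V i) hy.2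
    · rintro _ ⟨y, hy, rfl⟩
      have h1 : aL β V y = (aL β V + aR β V) y - aR β V y := by
        rw [LinearMap.add_apply]
        abel
      rw [h1]
      refine Submodule.sub_mem _ (Submodule.mem_map_of_mem hy) ?_
      have h2 : aR β V y ∈ (A β V i).map (aL β V) := hy.2
      rw [← ih] at h2
      exact Submodule.map_mono (la_mono' β V i) h2

/-- The orthogonal complement as a subspace of `V`. -/
private theorem orth_eq (i : ℕ) : (O β V (A β V i)).comap V.subtype =
    ((A β V i).map (aL β V + aR β V)).dualCoannihilator := by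
  ext v
  rw [Submodule.mem_dualCoannihilator]
  constructor
  · rintro ⟨_, h⟩ _ ⟨w, hw, rfl⟩
    exact h w hw
  · intro h
    exact ⟨v.2, fun w hw => h _ ⟨w, hw, rfl⟩⟩

theorem la_dim [FiniteDimensional K V] (i : ℕ) :
    finrank K (O β V (A β V i)) + finrank K (A β V i) =
      finrank K V + finrank K (A β V i ⊓ H β V : Submodule K E) := by
  have fA : FiniteDimensional K (A β V i) := Submodule.finiteDimensional_of_le (la_le' β V i)
  have h1 := rank_null (aL β V + aR β V) (A β V i)
  have h2 : A β V i ⊓ H β V = A β V i ⊓ LinearMap.ker (aL β V + aR β V) := by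
    change A β V i ⊓ (V ⊓ _) = _
    rw [← inf_assoc, inf_eq_left.2 (la_le' β V i)]
  have h3 : finrank K ((A β V i).map (aL β V + aR β V)) +
      finrank K ((A β V i).map (aL β V + aR β V)).dualCoannihilator = finrank K V :=
    Subspace.finrank_add_finrank_dualCoannihilator_eq ((A β V i).map (aL β V + aR β V))
  have h4 : finrank K ((O β V (A β V i)).comap V.subtype) = finrank K (O β V (A β V i)) := by
    have h5 : O β V (A β V i) ≤ V := fun x hx => hx.1
    rw [← Submodule.finrank_map_subtype_eq, Submodule.map_comap_subtype, inf_eq_right.2 h5]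
  rw [orth_eq] at h4
  rw [h2, ← h4, ← h3]
  generalize finrank K ((A β V i).map (aL β V + aR β V)).dualCoannihilator = a
  generalize finrank K ((A β V i).map (aL β V + aR β V)) = b at h1 ⊢
  omega

theorem la_dual [FiniteDimensional K V] (i : ℕ) {h : E} (hh : h ∈ H β V)
    (h0 : ∀ v ∈ O β V (A β V i), β h v = 0) : h ∈ A β V (i + 1) := by
  have fA : FiniteDimensional K (A β V i) := Submodule.finiteDimensional_of_le (la_le' β V i)
  obtain ⟨hV, hk⟩ := hh
  refine ⟨hV, ?_⟩
  have h1 : aL β V h ∈ (A β V i).map (aL β V) := by
    rw [← la_map', ← Subspace.dualCoannihilator_dualAnnihilator_eq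
      (W := (A β V i).map (aL β V + aR β V)), Submodule.mem_dualAnnihilator]
    intro v hv
    rw [← orth_eq] at hv
    exact h0 v hv
  have h2 : aR β V h = -aL β V h := by
    rw [SetLike.mem_coe, LinearMap.mem_ker, LinearMap.add_apply] at hk
    rw [eq_neg_iff_add_eq_zero, add_comm]
    exact hk
  change aR β V h ∈ (A β V i).map (aL β V)
  rw [h2]
  exact Submodule.neg_mem _ h1

end lin

end Pool.Agent.Helper49.MW
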